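import Pool.Agent.Lib.MP_d06d57_nt.App3

/-!
# Primes `p` in `(n, 2n)` with at most 13 prime factors in `(n² - n - p)(n² + n + p)`, for every large `n`

`AP n r` is the set of the primes `p` with `n < p < 2n` such that every prime factor of `(n² - n - p)(n² + n + p)` is
larger than `n^(1/r)`. `AQ n` is the set of the `p` in `AP n 56` for which `n² - n - p` and `n² + n + p` together have at
most 13 prime factors, counted with multiplicity. `GG n = ∏_{q ∣ n} (1 + 2/q) ∏_{q ∣ n² - 1} (1 + 1/q)` (products over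
primes) is the order of the singular series. There are `c > 0`, `C`, `n₀` with: for EVERY `n ≥ n₀`,

`c GG(n) n / (log n)³ ≤ #AQ n ≤ #AP n 56 ≤ C GG(n) n / (log n)³`.
-/

namespace Pool.Agent.Results.MP_d06d57_nt.AlmostPrimePairs

open Pool.Agent.Lib.MP_d06d57_nt

theorem result : ∃ (c C : ℝ) (n₀ : ℕ), 0 < c ∧ ∀ n : ℕ, n₀ ≤ n →
    c * GG n * n / (Real.log n) ^ 3 ≤ ((AQ n).card : ℝ) ∧
    ((AP n 56).card : ℝ) ≤ C * GG n * n / (Real.log n) ^ 3 := by
  obtain ⟨c, n₁, hc, h1⟩ := AQ_low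
  obtain ⟨C, n₂, -, h2⟩ := AP_up 56 (by norm_num)
  exact ⟨c, C, max n₁ n₂, hc, fun n hn => ⟨h1 n ((le_max_left _ _).trans hn),
    h2 n ((le_max_right _ _).trans hn)⟩⟩

end Pool.Agent.Results.MP_d06d57_nt.AlmostPrimePairs
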